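import Pool.Agent.Q214.LMD.Adj

/-!
# Local metric dimension of planar graphs (project LMD of helper231): task A2 (helper214)
-/

set_option autoImplicit false

namespace Pool.Agent.Q214.LMD

open Pool.Agent.Q231.LMD Pool.Agent.H49R2.PC

section dist

variable {V : Type} {G : SimpleGraph V}

lemma le_one_iff {a b : V} : G.edist a b ≤ 1 ↔ a = b ∨ G.Adj a b := by
  constructor
  · intro h
    have h1 : G.edist a b ≠ ⊤ := by
      intro h1
      rw [h1] at h
      exact absurd h (by decide)
    obtain ⟨p, hp⟩ := SimpleGraph.exists_walk_of_edist_ne_top h1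
    rw [← hp] at h
    have h2 : p.length ≤ 1 := by exact_mod_cast h
    cases p with
    | nil => exact Or.inl rfl
    | cons h' q =>
      cases q with
      | nil => exact Or.inr h'
      | cons h'' r =>
        rw [SimpleGraph.Walk.length_cons, SimpleGraph.Walk.length_cons] at h2
        omega
  · rintro (rfl | h)
    · rw [SimpleGraph.edist_self]
      exact bot_le
    · exact SimpleGraph.edist_le (SimpleGraph.Walk.cons h SimpleGraph.Walk.nil)

lemma le_two_iff {a b : V} : G.edist a b ≤ 2 ↔ ∃ z, (a = z ∨ G.Adj a z) ∧ (z = b ∨ G.Adj z b) := by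
  constructor
  · intro h
    have h1 : G.edist a b ≠ ⊤ := by
      intro h1
      rw [h1] at h
      exact absurd h (by decide)
    obtain ⟨p, hp⟩ := SimpleGraph.exists_walk_of_edist_ne_top h1
    rw [← hp] at h
    have h2 : p.length ≤ 2 := by exact_mod_cast h
    cases p with
    | nil => exact ⟨a, Or.inl rfl, Or.inl rfl⟩
    | @cons _ z _ h' q =>
      cases q with
      | nil => exact ⟨_, Or.inr h', Or.inl rfl⟩
      | cons h'' r =>
        cases r with
        | nil => exact ⟨_, Or.inr h', Or.inr h''⟩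
        | cons h3 s =>
          rw [SimpleGraph.Walk.length_cons, SimpleGraph.Walk.length_cons, SimpleGraph.Walk.length_cons] at h2
          omega
  · rintro ⟨z, h1, h2⟩
    have h3 := le_one_iff.2 h1
    have h4 := le_one_iff.2 h2
    refine (SimpleGraph.edist_triangle (v := z)).trans ?_
    calc G.edist a z + G.edist z b ≤ 1 + 1 := add_le_add h3 h4
      _ = 2 := by norm_num

end dist

/-- task A2 -/
theorem A2_ok : S_A2 := by
  classical
  intro E T hE hT
  set W : Finset ℕ := ((T.filter fun u => u ∈ selV E).image fun u => 6 * u) ∪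
    ((hubV E).toFinset.image fun k => 6 * k + 4) with hW
  have hWsel : ∀ e ∈ E, ∀ u ∈ att e, u ∈ T → 6 * u ∈ W := by
    intro e he u hu huT
    rw [hW, Finset.mem_union]
    left
    rw [Finset.mem_image]
    exact ⟨u, Finset.mem_filter.2 ⟨huT, mem_selV.2 ⟨e, he, hu⟩⟩, rfl⟩
  have hWhub : ∀ k ∈ hubV E, 6 * k + 4 ∈ W := by
    intro k hk
    rw [hW, Finset.mem_union]
    right
    rw [Finset.mem_image]
    exact ⟨k, List.mem_toFinset.2 hk, rfl⟩
  refine ⟨W, ⟨?_, ?_⟩, ?_⟩
  · intro w hw
    rw [hW, Finset.mem_union, Finset.mem_image, Finset.mem_image] at hw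
    show w ∈ ((selV E).map (fun u => 6 * u) ++ E.flatMap (fun e => [6 * e.1 + 1, 6 * e.1 + 2]) ++
      (hubV E).flatMap (fun k => [6 * k + 3, 6 * k + 4, 6 * k + 5]))
    rw [List.mem_append, List.mem_append, List.mem_map, List.mem_flatMap, List.mem_flatMap]
    rcases hw with ⟨u, hu, rfl⟩ | ⟨k, hk, rfl⟩
    · exact Or.inl (Or.inl ⟨u, (Finset.mem_filter.1 hu).2, rfl⟩)
    · refine Or.inr ⟨k, List.mem_toFinset.1 hk, ?_⟩
      simp
  · rintro ⟨m, n⟩ hmn
    show ∃ w ∈ W, (sg (gE E)).edist w m ≠ (sg (gE E)).edist w n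
    rw [mem_edges] at hmn
    -- edges between an end and an attached selector
    have hsel : ∀ e ∈ E, ∀ z, (z = 6 * e.1 + 1 ∨ z = 6 * e.1 + 2) → ∀ u,
        ∃ w ∈ W, (sg (gE E)).edist w z ≠ (sg (gE E)).edist w (6 * u) := by
      intro e he z hz u
      obtain ⟨k, hk⟩ := List.exists_mem_of_ne_nil _ (hE.hbs_ne e he)
      have hkV : k ∈ hubV E := mem_hubV.2 ⟨e, he, hk⟩
      refine ⟨6 * k + 4, hWhub k hkV, fun heq => ?_⟩
      have h1 : (sg (gE E)).edist (6 * k + 4) z ≤ 2 := by
        rw [le_two_iff]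
        refine ⟨6 * k + 3, Or.inr (adj_pr hkV), Or.inr ?_⟩
        rcases hz with rfl | rfl
        · exact (adj_hub1 he hk).symm
        · exact (adj_hub2 he hk).symm
      rw [heq, le_two_iff] at h1
      obtain ⟨z', h2, h3⟩ := h1
      have h4 : z' = 6 * k + 4 ∨ z' = 6 * k + 3 ∨ z' = 6 * k + 5 := by
        rcases h2 with h2 | h2
        · exact Or.inl h2.symm
        · exact Or.inr (nb4 h2)
      rcases h3 with h3 | h3
      · omega
      · obtain ⟨e', _, h5⟩ := nb0 h3.symm
        omega
    rcases hmn with ⟨e, he, h | ⟨u, hu, h⟩ | ⟨u, hu, h⟩ | ⟨k, hk, h | h⟩⟩ | ⟨k, hk, h | h | h⟩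
    · -- the special edge
      obtain ⟨rfl, rfl⟩ := h
      obtain ⟨u, hu, huT⟩ := hT e he
      refine ⟨6 * u, hWsel e he u hu huT, fun heq => ?_⟩
      rcases mem_att.1 hu with hu1 | hu2
      · have h1 : (sg (gE E)).edist (6 * u) (6 * e.1 + 1) ≤ 1 := le_one_iff.2 (Or.inr (adj_sel1 he hu1).symm)
        rw [heq, le_one_iff] at h1
        rcases h1 with h1 | h1
        · omega
        · obtain ⟨e', he', h5 | h5⟩ := nb0 h1
          · omega
          · have h6 := id_inj hE he he' (by omega)
            subst h6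
            exact hE.disj e he u hu1 h5.2
      · have h1 : (sg (gE E)).edist (6 * u) (6 * e.1 + 2) ≤ 1 := le_one_iff.2 (Or.inr (adj_sel2 he hu2).symm)
        rw [← heq, le_one_iff] at h1
        rcases h1 with h1 | h1
        · omega
        · obtain ⟨e', he', h5 | h5⟩ := nb0 h1
          · have h6 := id_inj hE he he' (by omega)
            subst h6
            exact hE.disj e he u h5.2 hu2
          · omega
    · obtain ⟨rfl, rfl⟩ := h
      exact hsel e he _ (Or.inl rfl) u
    · obtain ⟨rfl, rfl⟩ := h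
      exact hsel e he _ (Or.inr rfl) u
    · obtain ⟨rfl, rfl⟩ := h
      have hkV : k ∈ hubV E := mem_hubV.2 ⟨e, he, hk⟩
      refine ⟨6 * k + 4, hWhub k hkV, fun heq => ?_⟩
      have h1 : (sg (gE E)).edist (6 * k + 4) (6 * k + 3) ≤ 1 := le_one_iff.2 (Or.inr (adj_pr hkV))
      rw [← heq, le_one_iff] at h1
      rcases h1 with h1 | h1
      · omega
      · have := nb4 h1
        omega
    · obtain ⟨rfl, rfl⟩ := h
      have hkV : k ∈ hubV E := mem_hubV.2 ⟨e, he, hk⟩
      refine ⟨6 * k + 4, hWhub k hkV, fun heq => ?_⟩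
      have h1 : (sg (gE E)).edist (6 * k + 4) (6 * k + 3) ≤ 1 := le_one_iff.2 (Or.inr (adj_pr hkV))
      rw [← heq, le_one_iff] at h1
      rcases h1 with h1 | h1
      · omega
      · have := nb4 h1
        omega
    · obtain ⟨rfl, rfl⟩ := h
      refine ⟨6 * k + 4, hWhub k hk, fun heq => ?_⟩
      rw [SimpleGraph.edist_self, SimpleGraph.edist_eq_zero_iff] at heq
      omega
    · -- hub and second private vertex
      obtain ⟨rfl, rfl⟩ := h
      obtain ⟨e, he, hke⟩ := mem_hubV.1 hk
      obtain ⟨u, hu, huT⟩ := hT e he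
      refine ⟨6 * u, hWsel e he u hu huT, fun heq => ?_⟩
      have h1 : (sg (gE E)).edist (6 * u) (6 * k + 3) ≤ 2 := by
        rw [le_two_iff]
        rcases mem_att.1 hu with hu1 | hu2
        · exact ⟨6 * e.1 + 1, Or.inr (adj_sel1 he hu1).symm, Or.inr (adj_hub1 he hke)⟩
        · exact ⟨6 * e.1 + 2, Or.inr (adj_sel2 he hu2).symm, Or.inr (adj_hub2 he hke)⟩
      rw [heq, le_two_iff] at h1
      obtain ⟨z', h2, h3⟩ := h1
      have h4 : z' = 6 * k + 5 ∨ z' = 6 * k + 3 ∨ z' = 6 * k + 4 := by
        rcases h3 with h3 | h3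
        · exact Or.inl h3
        · exact Or.inr (nb5 h3.symm)
      rcases h2 with h2 | h2
      · omega
      · obtain ⟨e', _, h5⟩ := nb0 h2
        omega
    · obtain ⟨rfl, rfl⟩ := h
      refine ⟨6 * k + 4, hWhub k hk, fun heq => ?_⟩
      rw [SimpleGraph.edist_self, eq_comm, SimpleGraph.edist_eq_zero_iff] at heq
      omega
  · rw [hW, add_comm]
    refine (Finset.card_union_le _ _).trans (add_le_add ?_ ?_)
    · exact Finset.card_image_le.trans (Finset.card_filter_le _ _)
    · exact Finset.card_image_le.trans (List.toFinset_card_le _)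

end Pool.Agent.Q214.LMD
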