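import Pool.Agent.Q214.LMD.Adj

/-!
# Local metric dimension of planar graphs (project LMD of helper231): task A3b (helper214)
-/

set_option autoImplicit false

namespace Pool.Agent.Q214.LMD

open Pool.Agent.Q231.LMD Pool.Agent.H49R2.PC

/-- the two ends of a special edge, in any order -/
def Ends (e : Sp) (x y : ℕ) : Prop := (x = 6 * e.1 + 1 ∧ y = 6 * e.1 + 2) ∨ (x = 6 * e.1 + 2 ∧ y = 6 * e.1 + 1)

lemma nbE {E : List Sp} (hE : GoodE E) {e : Sp} (he : e ∈ E) {x y z : ℕ} (hxy : Ends e x y)
    (h : (sg (gE E)).Adj x z) : z = y ∨ (∃ u ∈ att e, z = 6 * u) ∨ ∃ k ∈ hbs e, z = 6 * k + 3 := by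
  rcases hxy with ⟨rfl, rfl⟩ | ⟨rfl, rfl⟩
  · rcases nb1 hE he h with h | ⟨u, hu, h⟩ | h
    · exact Or.inl h
    · exact Or.inr (Or.inl ⟨u, mem_att.2 (Or.inl hu), h⟩)
    · exact Or.inr (Or.inr h)
  · rcases nb2 hE he h with h | ⟨u, hu, h⟩ | h
    · exact Or.inl h
    · exact Or.inr (Or.inl ⟨u, mem_att.2 (Or.inr hu), h⟩)
    · exact Or.inr (Or.inr h)

lemma hubE {E : List Sp} {e : Sp} (he : e ∈ E) {x : ℕ} (hx : x = 6 * e.1 + 1 ∨ x = 6 * e.1 + 2) {k : ℕ}
    (hk : k ∈ hbs e) : (sg (gE E)).Adj x (6 * k + 3) := by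
  rcases hx with rfl | rfl
  · exact adj_hub1 he hk
  · exact adj_hub2 he hk

/-- walks from `x` can be replaced by walks from `y` -/
lemma walk_le {E : List Sp} (hE : GoodE E) {e : Sp} (he : e ∈ E) {x y w : ℕ} (hxy : Ends e x y)
    (hw1 : w ≠ 6 * e.1 + 1) (hw2 : w ≠ 6 * e.1 + 2) (hwu : ∀ u ∈ att e, w ≠ 6 * u) :
    ∀ (n : ℕ) (p : (sg (gE E)).Walk x w), p.length = n → (sg (gE E)).edist y w ≤ (n : ℕ∞) := by
  intro n
  induction n using Nat.strong_induction_on with
  | _ n ih =>
    intro p hp
    have hyE : y = 6 * e.1 + 1 ∨ y = 6 * e.1 + 2 := by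
      rcases hxy with h | h
      · exact Or.inr h.2
      · exact Or.inl h.2
    cases p with
    | nil =>
      exfalso
      rcases hxy with h | h
      · exact hw1 h.1
      · exact hw2 h.1
    | @cons _ z _ h q =>
      rw [SimpleGraph.Walk.length_cons] at hp
      rcases nbE hE he hxy h with rfl | ⟨u, hu, rfl⟩ | ⟨k, hk, rfl⟩
      · refine (SimpleGraph.edist_le q).trans ?_
        exact_mod_cast (show q.length ≤ n by omega)
      · cases q with
        | nil => exact absurd rfl (hwu u hu)
        | @cons _ z' _ h' r =>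
          rw [SimpleGraph.Walk.length_cons] at hp
          obtain ⟨e', he', hz'⟩ := nb0 h'
          have hz2 : (z' = 6 * e'.1 + 1 ∨ z' = 6 * e'.1 + 2) ∧ u ∈ att e' := by
            rcases hz' with h1 | h1
            · exact ⟨Or.inl h1.1, mem_att.2 (Or.inl h1.2)⟩
            · exact ⟨Or.inr h1.1, mem_att.2 (Or.inr h1.2)⟩
          by_cases hee : e = e'
          · subst hee
            by_cases hzy : z' = y
            · subst hzy
              refine (SimpleGraph.edist_le r).trans ?_
              exact_mod_cast (show r.length ≤ n by omega)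
            · have hzx : z' = x := by
                rcases hxy with h1 | h1
                · rcases hz2.1 with h2 | h2
                  · rw [h1.1, h2]
                  · exact absurd (h2.trans h1.2.symm) hzy
                · rcases hz2.1 with h2 | h2
                  · exact absurd (h2.trans h1.2.symm) hzy
                  · rw [h1.1, h2]
              subst hzx
              refine (ih r.length (by omega) r rfl).trans ?_
              exact_mod_cast (show r.length ≤ n by omega)
          · obtain ⟨k, hk, hk'⟩ := hE.share e he e' he' hee u hu hz2.2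
            have a1 : (sg (gE E)).Adj y (6 * k + 3) := hubE he hyE hk
            have a2 : (sg (gE E)).Adj (6 * k + 3) z' := (hubE he' hz2.1 hk').symm
            have h3 := SimpleGraph.edist_le (SimpleGraph.Walk.cons a1 (SimpleGraph.Walk.cons a2 r))
            refine h3.trans ?_
            rw [SimpleGraph.Walk.length_cons, SimpleGraph.Walk.length_cons]
            exact_mod_cast (show r.length + 1 + 1 ≤ n by omega)
      · have a1 : (sg (gE E)).Adj y (6 * k + 3) := hubE he hyE hk
        have h3 := SimpleGraph.edist_le (SimpleGraph.Walk.cons a1 q)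
        refine h3.trans ?_
        rw [SimpleGraph.Walk.length_cons]
        exact_mod_cast (show q.length + 1 ≤ n by omega)

lemma edist_le' {E : List Sp} (hE : GoodE E) {e : Sp} (he : e ∈ E) {x y w : ℕ} (hxy : Ends e x y)
    (hw1 : w ≠ 6 * e.1 + 1) (hw2 : w ≠ 6 * e.1 + 2) (hwu : ∀ u ∈ att e, w ≠ 6 * u) :
    (sg (gE E)).edist w y ≤ (sg (gE E)).edist w x := by
  rw [SimpleGraph.edist_comm (u := w) (v := y), SimpleGraph.edist_comm (u := w) (v := x)]
  exact le_iInf fun p => walk_le hE he hxy hw1 hw2 hwu p.length p rfl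

/-- task A3b -/
theorem A3b_ok : S_A3b := by
  intro E hE e he w hw1 hw2 hwu
  exact le_antisymm (edist_le' hE he (Or.inr ⟨rfl, rfl⟩) hw1 hw2 hwu)
    (edist_le' hE he (Or.inl ⟨rfl, rfl⟩) hw1 hw2 hwu)

end Pool.Agent.Q214.LMD
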