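import Pool.Agent.Q231.LMD.Stubs

/-!
# Local metric dimension of planar graphs (project LMD of helper231): adjacency facts (helper214)
-/

set_option autoImplicit false

namespace Pool.Agent.Q214.LMD

open Pool.Agent.Q231.LMD Pool.Agent.H49R2.PC

lemma mem_hubV {E : List Sp} {k : ℕ} : k ∈ hubV E ↔ ∃ e ∈ E, k ∈ hbs e := by
  unfold hubV
  rw [List.mem_dedup, List.mem_flatMap]

lemma mem_selV {E : List Sp} {u : ℕ} : u ∈ selV E ↔ ∃ e ∈ E, u ∈ att e := by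
  unfold selV
  rw [List.mem_dedup, List.mem_flatMap]

lemma mem_att {e : Sp} {u : ℕ} : u ∈ att e ↔ u ∈ e.2.1 ∨ u ∈ e.2.2.1 := by
  unfold att
  rw [List.mem_append]

/-- the edge list -/
def Ed (E : List Sp) (m n : ℕ) : Prop :=
  (∃ e ∈ E, (m = 6 * e.1 + 1 ∧ n = 6 * e.1 + 2) ∨ (∃ u ∈ e.2.1, m = 6 * e.1 + 1 ∧ n = 6 * u) ∨
    (∃ u ∈ e.2.2.1, m = 6 * e.1 + 2 ∧ n = 6 * u) ∨
    (∃ k ∈ hbs e, (m = 6 * e.1 + 1 ∧ n = 6 * k + 3) ∨ (m = 6 * e.1 + 2 ∧ n = 6 * k + 3))) ∨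
  ∃ k ∈ hubV E, (m = 6 * k + 3 ∧ n = 6 * k + 4) ∨ (m = 6 * k + 3 ∧ n = 6 * k + 5) ∨
    (m = 6 * k + 4 ∧ n = 6 * k + 5)

lemma mem_edges {E : List Sp} {m n : ℕ} : (m, n) ∈ (gE E).2 ↔ Ed E m n := by
  unfold gE Ed
  rw [List.mem_append, List.mem_flatMap, List.mem_flatMap]
  apply or_congr
  · apply exists_congr
    intro e
    apply and_congr_right
    intro _
    rw [List.mem_cons, List.mem_append, List.mem_append, List.mem_map, List.mem_map, List.mem_flatMap]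
    simp only [Prod.mk.injEq, List.mem_cons, List.not_mem_nil, or_false]
    apply or_congr Iff.rfl
    apply or_congr
    · apply exists_congr
      intro u
      exact and_congr_right fun _ => ⟨fun h => ⟨h.1.symm, h.2.symm⟩, fun h => ⟨h.1.symm, h.2.symm⟩⟩
    · apply or_congr
      · apply exists_congr
        intro u
        exact and_congr_right fun _ => ⟨fun h => ⟨h.1.symm, h.2.symm⟩, fun h => ⟨h.1.symm, h.2.symm⟩⟩
      · exact Iff.rfl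
  · apply exists_congr
    intro k
    apply and_congr_right
    intro _
    simp only [Prod.mk.injEq, List.mem_cons, List.not_mem_nil, or_false]

lemma Ed_ne {E : List Sp} {m n : ℕ} (h : Ed E m n) : m ≠ n := by
  rcases h with ⟨e, _, h | ⟨u, _, h⟩ | ⟨u, _, h⟩ | ⟨k, _, h | h⟩⟩ | ⟨k, _, h | h | h⟩ <;> omega

lemma adj_iff {E : List Sp} {m n : ℕ} : (sg (gE E)).Adj m n ↔ Ed E m n ∨ Ed E n m := by
  unfold sg
  rw [SimpleGraph.fromRel_adj]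
  show m ≠ n ∧ ((m, n) ∈ (gE E).2 ∨ (n, m) ∈ (gE E).2) ↔ _
  rw [mem_edges, mem_edges]
  constructor
  · exact fun h => h.2
  · intro h
    refine ⟨?_, h⟩
    rcases h with h | h
    · exact Ed_ne h
    · exact (Ed_ne h).symm

/-- the neighbours of the first private vertex -/
lemma nb4 {E : List Sp} {k x : ℕ} (h : (sg (gE E)).Adj (6 * k + 4) x) : x = 6 * k + 3 ∨ x = 6 * k + 5 := by
  rw [adj_iff] at h
  rcases h with h | h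
  · rcases h with ⟨e, _, h | ⟨u, _, h⟩ | ⟨u, _, h⟩ | ⟨k, _, h | h⟩⟩ | ⟨k, _, h | h | h⟩ <;> omega
  · rcases h with ⟨e, _, h | ⟨u, _, h⟩ | ⟨u, _, h⟩ | ⟨k, _, h | h⟩⟩ | ⟨k, _, h | h | h⟩ <;> omega

/-- the neighbours of the second private vertex -/
lemma nb5 {E : List Sp} {k x : ℕ} (h : (sg (gE E)).Adj (6 * k + 5) x) : x = 6 * k + 3 ∨ x = 6 * k + 4 := by
  rw [adj_iff] at h
  rcases h with h | h
  · rcases h with ⟨e, _, h | ⟨u, _, h⟩ | ⟨u, _, h⟩ | ⟨k, _, h | h⟩⟩ | ⟨k, _, h | h | h⟩ <;> omega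
  · rcases h with ⟨e, _, h | ⟨u, _, h⟩ | ⟨u, _, h⟩ | ⟨k, _, h | h⟩⟩ | ⟨k, _, h | h | h⟩ <;> omega

/-- the neighbours of a selector -/
lemma nb0 {E : List Sp} {u x : ℕ} (h : (sg (gE E)).Adj (6 * u) x) :
    ∃ e ∈ E, (x = 6 * e.1 + 1 ∧ u ∈ e.2.1) ∨ (x = 6 * e.1 + 2 ∧ u ∈ e.2.2.1) := by
  rw [adj_iff] at h
  rcases h with h | h
  · rcases h with ⟨e, _, h | ⟨u, _, h⟩ | ⟨u, _, h⟩ | ⟨k, _, h | h⟩⟩ | ⟨k, _, h | h | h⟩ <;> omega
  · rcases h with ⟨e, he, h | ⟨v, hv, h⟩ | ⟨v, hv, h⟩ | ⟨k, _, h | h⟩⟩ | ⟨k, _, h | h | h⟩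
    · omega
    · refine ⟨e, he, Or.inl ⟨h.1, ?_⟩⟩
      have : u = v := by omega
      rw [this]
      exact hv
    · refine ⟨e, he, Or.inr ⟨h.1, ?_⟩⟩
      have : u = v := by omega
      rw [this]
      exact hv
    all_goals omega

/-- different elements have different identifiers -/
lemma id_inj {E : List Sp} (hE : GoodE E) {e e' : Sp} (he : e ∈ E) (he' : e' ∈ E) (h : e.1 = e'.1) : e = e' :=
  List.inj_on_of_nodup_map hE.nodup he he' h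

/-- the neighbours of the first end -/
lemma nb1 {E : List Sp} (hE : GoodE E) {e : Sp} (he : e ∈ E) {x : ℕ} (h : (sg (gE E)).Adj (6 * e.1 + 1) x) :
    x = 6 * e.1 + 2 ∨ (∃ u ∈ e.2.1, x = 6 * u) ∨ ∃ k ∈ hbs e, x = 6 * k + 3 := by
  rw [adj_iff] at h
  rcases h with h | h
  · rcases h with ⟨e', he', h | ⟨u, hu, h⟩ | ⟨u, _, h⟩ | ⟨k, hk, h | h⟩⟩ | ⟨k, _, h | h | h⟩
    · omega
    · have h1 := id_inj hE he he' (by omega)
      subst h1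
      exact Or.inr (Or.inl ⟨u, hu, h.2⟩)
    · omega
    · have h1 := id_inj hE he he' (by omega)
      subst h1
      exact Or.inr (Or.inr ⟨k, hk, h.2⟩)
    all_goals omega
  · rcases h with ⟨e', he', h | ⟨u, hu, h⟩ | ⟨u, _, h⟩ | ⟨k, hk, h | h⟩⟩ | ⟨k, _, h | h | h⟩ <;> omega

/-- the neighbours of the second end -/
lemma nb2 {E : List Sp} (hE : GoodE E) {e : Sp} (he : e ∈ E) {x : ℕ} (h : (sg (gE E)).Adj (6 * e.1 + 2) x) :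
    x = 6 * e.1 + 1 ∨ (∃ u ∈ e.2.2.1, x = 6 * u) ∨ ∃ k ∈ hbs e, x = 6 * k + 3 := by
  rw [adj_iff] at h
  rcases h with h | h
  · rcases h with ⟨e', he', h | ⟨u, hu, h⟩ | ⟨u, hu, h⟩ | ⟨k, hk, h | h⟩⟩ | ⟨k, _, h | h | h⟩
    · omega
    · omega
    · have h1 := id_inj hE he he' (by omega)
      subst h1
      exact Or.inr (Or.inl ⟨u, hu, h.2⟩)
    · omega
    · have h1 := id_inj hE he he' (by omega)
      subst h1
      exact Or.inr (Or.inr ⟨k, hk, h.2⟩)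
    all_goals omega
  · rcases h with ⟨e', he', h | ⟨u, hu, h⟩ | ⟨u, _, h⟩ | ⟨k, hk, h | h⟩⟩ | ⟨k, _, h | h | h⟩ <;> omega

lemma adj_hub1 {E : List Sp} {e : Sp} (he : e ∈ E) {k : ℕ} (hk : k ∈ hbs e) :
    (sg (gE E)).Adj (6 * e.1 + 1) (6 * k + 3) :=
  adj_iff.2 (Or.inl (Or.inl ⟨e, he, Or.inr (Or.inr (Or.inr ⟨k, hk, Or.inl ⟨rfl, rfl⟩⟩))⟩))

lemma adj_hub2 {E : List Sp} {e : Sp} (he : e ∈ E) {k : ℕ} (hk : k ∈ hbs e) :
    (sg (gE E)).Adj (6 * e.1 + 2) (6 * k + 3) :=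
  adj_iff.2 (Or.inl (Or.inl ⟨e, he, Or.inr (Or.inr (Or.inr ⟨k, hk, Or.inr ⟨rfl, rfl⟩⟩))⟩))

lemma adj_sel1 {E : List Sp} {e : Sp} (he : e ∈ E) {u : ℕ} (hu : u ∈ e.2.1) :
    (sg (gE E)).Adj (6 * e.1 + 1) (6 * u) :=
  adj_iff.2 (Or.inl (Or.inl ⟨e, he, Or.inr (Or.inl ⟨u, hu, rfl, rfl⟩)⟩))

lemma adj_sel2 {E : List Sp} {e : Sp} (he : e ∈ E) {u : ℕ} (hu : u ∈ e.2.2.1) :
    (sg (gE E)).Adj (6 * e.1 + 2) (6 * u) :=
  adj_iff.2 (Or.inl (Or.inl ⟨e, he, Or.inr (Or.inr (Or.inl ⟨u, hu, rfl, rfl⟩))⟩))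

lemma adj_pr {E : List Sp} {k : ℕ} (hk : k ∈ hubV E) : (sg (gE E)).Adj (6 * k + 4) (6 * k + 3) :=
  adj_iff.2 (Or.inr (Or.inr ⟨k, hk, Or.inl ⟨rfl, rfl⟩⟩))

end Pool.Agent.Q214.LMD
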